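import Pool.Agent.Q165.OW.Upper
import Pool.Agent.Q165.OW.Lower

/-!
# MP_f45649_co: the conjectured value fails when the smallest wheels are `W_5`

For `F = W_{2 k_0 + 1} ∪ ... ∪ W_{2 k_{m - 1} + 1}` with `2 ≤ k_i ≤ 2 (m - i)` (so that
`k_{m - 1} = 2`), the conjectured value of `ex(n, F)` is too small by a linear amount.
-/

set_option autoImplicit false

namespace Pool.Agent.Results.MP_f45649_co.FiveWheels

open Finset SimpleGraph Pool.Agent.Q165.OW

lemma arith (n n₀ t a b x E c : ℕ) (hn : n = t + a + b) (hab : b = a ∨ b = a + 1)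
    (hx : 2 * x + n₀ ≤ 2 * (t + 1) * n₀ + c) (h₀ : n₀ ≤ n)
    (hE : t * (t + a + b) + a * (t + b) + a + b * (t + a) + b ≤ 2 * E + t + 2)
    (hN : 10 * ((t + 4) * (t + 4) + c) ≤ n) :
    n₀ * (n - n₀) + x + 1 + n / 5 + 1 ≤ E := by
  obtain ⟨u, rfl⟩ : ∃ u, n = n₀ + u := ⟨n - n₀, by omega⟩
  rw [Nat.add_sub_cancel_left]
  have h5 : 5 * ((n₀ + u) / 5) ≤ n₀ + u := Nat.mul_div_le _ _
  generalize (n₀ + u) / 5 = w at h5 ⊢
  have h4 : (a + b) * (a + b) ≤ 4 * (a * b) + 1 := by
    rcases hab with rfl | rfl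
    · nlinarith
    · nlinarith
  zify at *
  have hu : (u : ℤ) = t + a + b - n₀ := by linarith
  have hp : (n₀ : ℤ) * u = n₀ * (t + a + b - n₀) := by rw [hu]
  rw [hp]
  nlinarith [sq_nonneg (4 * (n₀ : ℤ) - 2 * (t + a + b) - 2 * t - 1), sq_nonneg ((t : ℤ))]

/-- For all `m ≥ 1` and `k_0, ..., k_{m - 1} ≥ 2` with `k_i ≤ 2 (m - i)`, the extremal number of
the union of the wheels `W_{2 k_i + 1}` exceeds the conjectured value by more than `n / 5` for all
sufficiently large `n`. -/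
theorem result : ∀ (m : ℕ) (k : Fin m → ℕ), 1 ≤ m → (∀ i, 2 ≤ k i) →
    (∀ i : Fin m, k i + 2 * (i : ℕ) ≤ 2 * m) →
    ∃ N : ℕ, ∀ n : ℕ, N ≤ n → conjValue k n + n / 5 < extremalNumber n (wheels k) := by
  classical
  intro m k hm hk2 hk
  obtain ⟨t, rfl⟩ : ∃ t, m = t + 1 := ⟨m - 1, by omega⟩
  refine ⟨10 * ((t + 4) * (t + 4) + cst (t + 1)), fun n hn => ?_⟩
  have ht : t ≤ n := by nlinarith [Nat.zero_le (cst (t + 1)), Nat.zero_le (t * t)]
  have hn1 : 1 ≤ n := by nlinarith [Nat.zero_le (cst (t + 1)), Nat.zero_le (t * t)]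
  set a := (n - t) / 2 with ha
  set b := n - t - a with hb
  have hnab : n = t + a + b := by omega
  have hab : b = a ∨ b = a + 1 := by omega
  have hcard : Fintype.card (Fin t ⊕ (Fin a ⊕ Fin b)) = n := by
    simp only [Fintype.card_sum, Fintype.card_fin]
    omega
  have hE : (bigGraph t a b).edgeFinset.card ≤ extremalNumber n (wheels k) := by
    have h := card_edgeFinset_le_extremalNumber (free (a := a) (b := b) hm hk2)
    simp only [Nat.add_sub_cancel] at h
    rw [hcard] at h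
    exact h
  have hedges := edges (t := t) (a := a) (b := b)
  have key : ∀ n₀ ∈ Finset.Icc 1 n,
      n₀ * (n - n₀) + extremalNumber n₀ (starForest k) + 1 + n / 5 + 1 ≤
        extremalNumber n (wheels k) := by
    intro n₀ h₀
    exact arith n n₀ t a b _ _ _ hnab hab (ex_starForest hm hk n₀) (Finset.mem_Icc.mp h₀).2
      (by omega) hn
  have h1 := key 1 (Finset.mem_Icc.mpr ⟨le_refl 1, hn1⟩)
  have h2 : conjValue k n ≤ extremalNumber n (wheels k) - n / 5 - 1 := by
    unfold conjValue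
    refine Finset.sup_le fun n₀ h₀ => ?_
    have := key n₀ h₀
    omega
  omega

end Pool.Agent.Results.MP_f45649_co.FiveWheels
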